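import Pool.Agent.Run7.h800.RG.Stm

/-!
# Project RG (helper800), MP_e3daee_pr: piece FMA, `a` is the compensator of `A`
-/

set_option autoImplicit false

namespace Run7.h331.RG

open Run7.h800.RG
open MeasureTheory ProbabilityTheory Set Filter Topology
open scoped ENNReal NNReal

lemma PE_prob : IsProbabilityMeasure PE := ⟨by
  simp only [PE, Measure.coe_add, Measure.coe_smul, Pi.add_apply, Pi.smul_apply, smul_eq_mul,
    Measure.dirac_apply_of_mem (mem_univ _), Measure.restrict_apply_univ, Real.volume_Ico]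
  simp [ENNReal.inv_two_add_inv_two]⟩

lemma ix_mono (n : ℕ) {u v : ℝ} (h : u ≤ v) : ix n u ≤ ix n v :=
  Nat.floor_mono (mul_le_mul_of_nonneg_right h (Nat.cast_nonneg _))

lemma ix_meas (n : ℕ) : Measurable (ix n) := Nat.measurable_floor.comp (measurable_id.mul_const _)

/-- integrals of step functions over a grid -/
lemma grid_integral (N : ℕ) (hN : 0 < N) (g : ℕ → ℝ) (j0 : ℕ) : ∀ d : ℕ,
    IntegrableOn (fun u : ℝ => (N : ℝ) * g ⌊u * (N : ℝ)⌋₊) (Ico ((j0 : ℝ) / N) (((j0 + d : ℕ) : ℝ) / N)) volume ∧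
    ∫ u in Ico ((j0 : ℝ) / N) (((j0 + d : ℕ) : ℝ) / N), (N : ℝ) * g ⌊u * (N : ℝ)⌋₊ =
      ∑ j ∈ Finset.Ico j0 (j0 + d), g j := by
  have hN' : (0 : ℝ) < N := by exact_mod_cast hN
  intro d
  induction d with
  | zero => simp
  | succ d ih =>
    obtain ⟨ih1, ih2⟩ := ih
    have hsplit : Ico ((j0 : ℝ) / N) (((j0 + (d + 1) : ℕ) : ℝ) / N) =
        Ico ((j0 : ℝ) / N) (((j0 + d : ℕ) : ℝ) / N) ∪
        Ico (((j0 + d : ℕ) : ℝ) / N) (((j0 + (d + 1) : ℕ) : ℝ) / N) := by
      rw [Ico_union_Ico_eq_Ico]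
      · gcongr; omega
      · gcongr; omega
    have hconst : ∀ u ∈ Ico (((j0 + d : ℕ) : ℝ) / N) (((j0 + (d + 1) : ℕ) : ℝ) / N),
        (N : ℝ) * g ⌊u * (N : ℝ)⌋₊ = (N : ℝ) * g (j0 + d) := by
      intro u hu
      congr 2
      rw [Nat.floor_eq_iff (by
        have : (0 : ℝ) ≤ ((j0 + d : ℕ) : ℝ) / N := by positivity
        exact mul_nonneg (this.trans hu.1) hN'.le)]
      have h1 := hu.1
      have h2 := hu.2
      rw [div_le_iff₀ hN'] at h1
      rw [lt_div_iff₀ hN'] at h2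
      refine ⟨h1, ?_⟩
      push_cast at h2 ⊢
      linarith
    have hi : IntegrableOn (fun u : ℝ => (N : ℝ) * g ⌊u * (N : ℝ)⌋₊)
        (Ico (((j0 + d : ℕ) : ℝ) / N) (((j0 + (d + 1) : ℕ) : ℝ) / N)) volume := by
      rw [integrableOn_congr_fun hconst measurableSet_Ico]
      exact integrableOn_const (by simp) enorm_ne_top
    have hv : ∫ u in Ico (((j0 + d : ℕ) : ℝ) / N) (((j0 + (d + 1) : ℕ) : ℝ) / N),
        (N : ℝ) * g ⌊u * (N : ℝ)⌋₊ = g (j0 + d) := by
      rw [setIntegral_congr_fun measurableSet_Ico hconst, setIntegral_const]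
      have : volume.real (Ico (((j0 + d : ℕ) : ℝ) / N) (((j0 + (d + 1) : ℕ) : ℝ) / N)) = 1 / N := by
        rw [Measure.real, Real.volume_Ico, ENNReal.toReal_ofReal]
        · push_cast; ring
        · rw [sub_nonneg]; gcongr; omega
      rw [this, smul_eq_mul]
      field_simp
    constructor
    · rw [hsplit]; exact ih1.union hi
    · rw [hsplit, setIntegral_union _ measurableSet_Ico ih1 hi, ih2, hv,
        ← Nat.add_assoc, Finset.sum_Ico_succ_top (by omega)]
      rw [Set.disjoint_left]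
      intro x hx hx2
      exact absurd hx.2 (not_lt.mpr hx2.1)

section
variable {Ω₀ : Type} [MeasurableSpace Ω₀] {PB : Measure Ω₀} {W : ℝ≥0 → Ω₀ → ℝ}

lemma fn_meas (hA : S_ARI) (n : ℕ) : Measurable (fn n : ℝ × (Ω₀ × ℝ) → ℝ) := by
  have h1 : Measurable (fun q : ℝ × ℕ => w n q.1 q.2) :=
    measurable_from_prod_countable_left fun j => hA.2.2.2.1 n j
  have h2 : Measurable (fun p : ℝ × (Ω₀ × ℝ) => (p.2.2, ix n p.1)) :=
    (measurable_snd.comp measurable_snd).prodMk ((ix_meas n).comp measurable_fst)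
  exact (h1.comp h2).const_mul _

lemma fn_int (hA : S_ARI) (hW : BM PB W) (n : ℕ) : Integrable (fn n) (Q PB) := by
  haveI := hW.prob
  haveI := PE_prob
  haveI : IsFiniteMeasure (Q PB) := by unfold Q; infer_instance
  refine Integrable.mono' (integrable_const (NN n : ℝ)) (fn_meas hA n).aestronglyMeasurable
    (ae_of_all _ fun p => ?_)
  have h1 := hA.2.2.1 n p.2.2 (ix n p.1)
  have h2 : (1 / 3 : ℝ) ^ n ≤ 1 := pow_le_one₀ (by norm_num) (by norm_num)
  rw [Real.norm_eq_abs, fn, abs_of_nonneg (mul_nonneg (Nat.cast_nonneg _) h1.1)]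
  have h3 : (0 : ℝ) ≤ NN n := Nat.cast_nonneg _
  nlinarith [h1.1, h1.2]

/-- the `σ`-algebra of level `n` at time `s` -/
noncomputable def Fn (W : ℝ≥0 → Ω₀ → ℝ) (n : ℕ) (s : ℝ) : MeasurableSpace (Ω₀ × ℝ) :=
  MeasurableSpace.comap (fun ω : Ω₀ × ℝ => Phi W n (s, ω)) inferInstance

lemma Fn_mono (hF : S_FIL) (hW : BM PB W) (s : ℝ) : Monotone fun n => Fn W n s := by
  apply monotone_nat_of_le_succ
  intro n
  have h1 := (hF Ω₀ _ PB W hW).2.1 n
  have h2 := MeasurableSpace.comap_mono (g := fun ω : Ω₀ × ℝ => (s, ω)) h1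
  unfold Pn at h2
  rw [MeasurableSpace.comap_comp, MeasurableSpace.comap_comp] at h2
  exact h2

lemma Fn_le (hF : S_FIL) (hW : BM PB W) (n : ℕ) (s : ℝ) :
    Fn W n s ≤ (inferInstance : MeasurableSpace (Ω₀ × ℝ)) := by
  have h1 := (hF Ω₀ _ PB W hW).1 n
  have h2 := MeasurableSpace.comap_mono (g := fun ω : Ω₀ × ℝ => (s, ω)) h1
  unfold Pn at h2
  rw [MeasurableSpace.comap_comp] at h2
  refine le_trans h2 ?_
  exact (measurable_prodMk_left (x := s)).comap_le

/-- the lifted events -/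
lemma lift_meas (n : ℕ) (s : ℝ) (E : Set (Ω₀ × ℝ)) (hE : MeasurableSet[Fn W n s] E) :
    MeasurableSet[Pn W n] {p : ℝ × (Ω₀ × ℝ) | ix n s ≤ ix n p.1 ∧ p.2 ∈ E} := by
  obtain ⟨C, hC, rfl⟩ := hE
  refine ⟨{q : ℕ × (ℕ → ℝ) | ix n s ≤ q.1 ∧
    ((ix n s, fun i => if i < ix n s then q.2 i else 0) : ℕ × (ℕ → ℝ)) ∈ C}, ?_, ?_⟩
  · apply MeasurableSet.inter
    · exact measurable_fst (measurableSet_Ici (a := ix n s))
    · have : Measurable (fun q : ℕ × (ℕ → ℝ) =>
          ((ix n s, fun i => if i < ix n s then q.2 i else 0) : ℕ × (ℕ → ℝ))) := by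
        apply Measurable.prodMk measurable_const
        apply measurable_pi_lambda
        intro i
        by_cases hi : i < ix n s
        · simp only [hi, if_true]
          exact (measurable_pi_apply i).comp measurable_snd
        · simp only [hi, if_false]
          exact measurable_const
      exact this hC
  · ext p
    simp only [mem_preimage, mem_setOf_eq, Phi]
    constructor
    · rintro ⟨h1, h2⟩
      refine ⟨h1, ?_⟩
      convert h2 using 2
      funext i
      by_cases hi : i < ix n s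
      · simp only [hi, if_true, lt_of_lt_of_le hi h1]
      · simp only [hi, if_false]
    · rintro ⟨h1, h2⟩
      refine ⟨h1, ?_⟩
      convert h2 using 2
      funext i
      by_cases hi : i < ix n s
      · simp only [hi, if_true, lt_of_lt_of_le hi h1]
      · simp only [hi, if_false]

lemma Pn_mono (hF : S_FIL) (hW : BM PB W) : Monotone fun n => Pn W n :=
  monotone_nat_of_le_succ (hF Ω₀ _ PB W hW).2.1

lemma ix_le_of_le (hA : S_ARI) {s u : ℝ} (hs : 0 ≤ s) (hu : 0 ≤ u) (n : ℕ) : ∀ d : ℕ,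
    ix (n + d) s ≤ ix (n + d) u → ix n s ≤ ix n u := by
  intro d
  induction d with
  | zero => exact id
  | succ d ih =>
    intro h
    apply ih
    rw [← hA.2.2.2.2.1 (n + d) s hs, ← hA.2.2.2.2.1 (n + d) u hu]
    exact Nat.div_le_div_right h

lemma NN_pos (hA : S_ARI) (n : ℕ) : 0 < NN n :=
  lt_of_lt_of_le (by positivity) (hA.2.2.2.2.2 n)

/-- the grid time below `t` -/
noncomputable def gr (n : ℕ) (t : ℝ) : ℝ≥0 := gt n (ix n t)

lemma gr_coe (n : ℕ) (t : ℝ) : ((gr n t : ℝ≥0) : ℝ) = (ix n t : ℝ) / (NN n : ℝ) := by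
  simp [gr, gt]

lemma ix_le_NN (n : ℕ) {t : ℝ} (ht : t ≤ 1) : ix n t ≤ NN n := by
  apply Nat.floor_le_of_le
  have : (0 : ℝ) ≤ NN n := Nat.cast_nonneg _
  nlinarith

lemma gr_le_one (hA : S_ARI) (n : ℕ) {t : ℝ} (ht : t ≤ 1) : (gr n t : ℝ) ≤ 1 := by
  rw [gr_coe, div_le_one (by exact_mod_cast NN_pos hA n)]
  exact_mod_cast ix_le_NN n ht

lemma le_ix_iff (hA : S_ARI) (n j : ℕ) {u : ℝ} (hu : 0 ≤ u) :
    j ≤ ix n u ↔ (j : ℝ) / (NN n : ℝ) ≤ u := by
  have h : (0 : ℝ) < NN n := by exact_mod_cast NN_pos hA n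
  rw [ix, Nat.le_floor_iff (mul_nonneg hu h.le), div_le_iff₀ h]

/-- the identity on the grid -/
lemma grid_identity (hA : S_ARI) (hC : S_CDF) (hF : S_FIL) (hG : S_GDB) (hW : BM PB W)
    {b : ℝ × (Ω₀ × ℝ) → ℝ} (hb : Comp PB W b) {s t : ℝ} (hs : 0 ≤ s) (hst : s ≤ t) (ht : t ≤ 1)
    (n d : ℕ) (E : Set (Ω₀ × ℝ)) (hE : MeasurableSet[Fn W n s] E) :
    ∫ ω in E, (A ω.2 (gr (n + d) t) - A ω.2 (gr (n + d) s)) ∂(PB.prod PE) =
      ∫ ω in E, (a b (gr (n + d) t) ω - a b (gr (n + d) s) ω) ∂(PB.prod PE) := by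
  haveI := hW.prob
  haveI := PE_prob
  haveI : IsFiniteMeasure (Q PB) := by unfold Q; infer_instance
  set m := n + d with hm
  have hNpos : (0 : ℝ) < NN m := by exact_mod_cast NN_pos hA m
  have hE' : MeasurableSet E := Fn_le hF hW n s E hE
  have hj : ix m s ≤ ix m t := ix_mono m hst
  have hjN : ix m t ≤ NN m := ix_le_NN m ht
  set I : Set ℝ := Ico ((ix m s : ℝ) / NN m) ((ix m t : ℝ) / NN m) with hI
  have hI01 : I ⊆ Ico 0 1 := by
    intro u hu
    refine ⟨le_trans (by positivity) hu.1, lt_of_lt_of_le hu.2 ?_⟩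
    rw [div_le_one hNpos]; exact_mod_cast hjN
  -- the predictable set
  set B : Set (ℝ × (Ω₀ × ℝ)) := {p | ix n s ≤ ix n p.1 ∧ p.2 ∈ E} ∩
    {p | ix m s ≤ ix m p.1 ∧ ix m p.1 < ix m t} with hB
  have hBm : MeasurableSet[Pn W m] B := by
    apply MeasurableSet.inter
    · exact Pn_mono hF hW (Nat.le_add_right n d) _ (lift_meas n s E hE)
    · refine ⟨{q : ℕ × (ℕ → ℝ) | ix m s ≤ q.1 ∧ q.1 < ix m t}, ?_, rfl⟩
      exact (measurable_fst (measurableSet_Ico (a := ix m s) (b := ix m t)))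
  have hBae : B =ᵐ[Q PB] I ×ˢ E := by
    have h01 : ∀ᵐ p ∂(Q PB), p.1 ∈ Ico (0 : ℝ) 1 := by
      have h1 : ∀ᵐ u ∂((volume : Measure ℝ).restrict (Ico 0 1)), u ∈ Ico (0 : ℝ) 1 :=
        ae_restrict_mem measurableSet_Ico
      exact Measure.quasiMeasurePreserving_fst.ae h1
    filter_upwards [h01] with p hp
    apply propext
    show p ∈ B ↔ p ∈ I ×ˢ E
    simp only [hB, hI, mem_inter_iff, mem_setOf_eq, mem_prod, mem_Ico]
    constructor
    · rintro ⟨⟨_, h2⟩, h3, h4⟩
      refine ⟨⟨(le_ix_iff hA m _ hp.1).mp h3, ?_⟩, h2⟩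
      rw [← not_le] at h4 ⊢
      exact fun h => h4 ((le_ix_iff hA m _ hp.1).mpr h)
    · rintro ⟨⟨h1, h2⟩, h3⟩
      have h4 := (le_ix_iff hA m _ hp.1).mpr h1
      refine ⟨⟨ix_le_of_le hA hs hp.1 n d h4, h3⟩, h4, ?_⟩
      rw [← not_le] at h2 ⊢
      exact fun h => h2 ((le_ix_iff hA m _ hp.1).mp h)
  have key := hb.eq m B hBm
  rw [setIntegral_congr_set hBae, setIntegral_congr_set hBae] at key
  have hQ : (Q PB).restrict (I ×ˢ E) = (volume.restrict I).prod ((PB.prod PE).restrict E) := by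
    unfold Q
    rw [← Measure.prod_restrict, Measure.restrict_restrict_of_subset hI01]
  have hint1 : Integrable b ((volume.restrict I).prod ((PB.prod PE).restrict E)) := by
    rw [← hQ]; exact hb.int.restrict
  have hint2 : Integrable (fn m) ((volume.restrict I).prod ((PB.prod PE).restrict E)) := by
    rw [← hQ]; exact (fn_int hA hW m).restrict
  rw [hQ, integral_prod_symm _ hint1, integral_prod_symm _ hint2] at key
  -- identify the inner integrals
  have hGd := (hG Ω₀ _ PB W hW b hb).2.1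
  have hGd' : ∀ᵐ ω ∂((PB.prod PE).restrict E), ω ∈ Gd b := by
    apply ae_restrict_of_ae
    rw [ae_iff]
    exact hGd
  have h1 : ∫ ω in E, (∫ u in I, b (u, ω)) ∂(PB.prod PE) =
      ∫ ω in E, (a b (gr m t) ω - a b (gr m s) ω) ∂(PB.prod PE) := by
    apply integral_congr_ae
    filter_upwards [hGd'] with ω hω
    have hmt : min ((gr m t : ℝ≥0) : ℝ) 1 = (ix m t : ℝ) / NN m := by
      rw [min_eq_left (gr_le_one hA m ht), gr_coe]
    have hms : min ((gr m s : ℝ≥0) : ℝ) 1 = (ix m s : ℝ) / NN m := by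
      rw [min_eq_left (gr_le_one hA m (hst.trans ht)), gr_coe]
    simp only [a, if_pos hω]
    rw [hmt, hms]
    have hle : (ix m s : ℝ) / NN m ≤ (ix m t : ℝ) / NN m := by gcongr
    have hω' : IntegrableOn (fun u => b (u, ω)) (Ico 0 1) volume := hω
    have hsub : Ico (0 : ℝ) ((ix m t : ℝ) / NN m) =
        Ico (0 : ℝ) ((ix m s : ℝ) / NN m) ∪ I := by
      rw [hI, Ico_union_Ico_eq_Ico (by positivity) hle]
    rw [hsub, setIntegral_union _ measurableSet_Ico]
    · ring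
    · apply hω'.mono_set
      intro u hu
      refine ⟨hu.1, lt_of_lt_of_le hu.2 ?_⟩
      rw [div_le_one hNpos]; exact_mod_cast (hj.trans hjN)
    · exact hω'.mono_set hI01
    · rw [Set.disjoint_left]
      intro x hx hx2
      exact absurd hx.2 (not_lt.mpr hx2.1)
  have h2 : ∫ ω in E, (∫ u in I, fn m (u, ω)) ∂(PB.prod PE) =
      ∫ ω in E, (A ω.2 (gr m t) - A ω.2 (gr m s)) ∂(PB.prod PE) := by
    apply integral_congr_ae
    filter_upwards with ω
    have h3 := (grid_integral (NN m) (NN_pos hA m) (w m ω.2) (ix m s) (ix m t - ix m s)).2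
    rw [Nat.add_sub_cancel' hj] at h3
    have h4 : ∫ u in I, fn m (u, ω) = ∑ j ∈ Finset.Ico (ix m s) (ix m t), w m ω.2 j := h3
    rw [h4, gr_coe, gr_coe, hC.2.2.2.2.2.2 ω.2 m _ hjN, hC.2.2.2.2.2.2 ω.2 m _ (hj.trans hjN),
      Finset.sum_Ico_eq_sub _ hj]
  rw [h1, h2] at key
  exact key.symm

lemma gr_tendsto (hA : S_ARI) {t : ℝ} (ht : 0 ≤ t) (n : ℕ) :
    Tendsto (fun d => ((gr (n + d) t : ℝ≥0) : ℝ)) atTop (𝓝 t) := by
  have h1 : ∀ d, |((gr (n + d) t : ℝ≥0) : ℝ) - t| ≤ (1 / 4 : ℝ) ^ d := by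
    intro d
    have hN : (0 : ℝ) < NN (n + d) := by exact_mod_cast NN_pos hA (n + d)
    have h4 : (4 : ℝ) ^ (n + d) ≤ NN (n + d) := by exact_mod_cast hA.2.2.2.2.2 (n + d)
    have h5 : (ix (n + d) t : ℝ) ≤ t * NN (n + d) := Nat.floor_le (mul_nonneg ht hN.le)
    have h6 : t * NN (n + d) < (ix (n + d) t : ℝ) + 1 := Nat.lt_floor_add_one _
    have h7 : 1 / (NN (n + d) : ℝ) ≤ (1 / 4 : ℝ) ^ d := by
      calc 1 / (NN (n + d) : ℝ) ≤ 1 / (4 : ℝ) ^ (n + d) := one_div_le_one_div_of_le (by positivity) h4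
        _ = (1 / 4 : ℝ) ^ (n + d) := by rw [one_div_pow]
        _ ≤ (1 / 4 : ℝ) ^ d := pow_le_pow_of_le_one (by norm_num) (by norm_num) (by omega)
    refine le_trans ?_ h7
    rw [gr_coe, abs_le]
    constructor
    · rw [le_sub_iff_add_le, ← sub_eq_neg_add, sub_le_iff_le_add, ← add_div, le_div_iff₀ hN]
      linarith
    · rw [sub_le_iff_le_add]
      have h8 : (ix (n + d) t : ℝ) / NN (n + d) ≤ t := by rw [div_le_iff₀ hN]; exact h5
      have : 0 ≤ 1 / (NN (n + d) : ℝ) := by positivity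
      linarith
  have h2 : Tendsto (fun d : ℕ => (1 / 4 : ℝ) ^ d) atTop (𝓝 0) :=
    tendsto_pow_atTop_nhds_zero_of_lt_one (by norm_num) (by norm_num)
  rw [tendsto_iff_norm_sub_tendsto_zero]
  exact squeeze_zero (fun d => norm_nonneg _) (fun d => by rw [Real.norm_eq_abs]; exact h1 d) h2

lemma gr_tendsto_nn (hA : S_ARI) (t : ℝ≥0) (n : ℕ) :
    Tendsto (fun d => gr (n + d) (t : ℝ)) atTop (𝓝 t) := by
  rw [← NNReal.tendsto_coe]
  exact gr_tendsto hA t.2 n

/-- the identity for the events of level `n` -/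
lemma level_identity (hA : S_ARI) (hC : S_CDF) (hF : S_FIL) (hG : S_GDB) (hW : BM PB W)
    {b : ℝ × (Ω₀ × ℝ) → ℝ} (hb : Comp PB W b) {s t : ℝ≥0} (hst : s ≤ t) (ht : t ≤ 1)
    (n : ℕ) (E : Set (Ω₀ × ℝ)) (hE : MeasurableSet[Fn W n s] E) :
    ∫ ω in E, (A ω.2 t - A ω.2 s) ∂(PB.prod PE) =
      ∫ ω in E, (a b t ω - a b s ω) ∂(PB.prod PE) := by
  haveI := hW.prob
  haveI := PE_prob
  have hst' : (s : ℝ) ≤ t := by exact_mod_cast hst
  have ht' : (t : ℝ) ≤ 1 := by exact_mod_cast ht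
  have hgrid := fun d => grid_identity hA hC hF hG hW hb s.2 hst' ht' n d E hE
  obtain ⟨_, _, gcont, gmono, gzero, gmeas, gint⟩ := hG Ω₀ _ PB W hW b hb
  have hgle : ∀ d, gr (n + d) (t : ℝ) ≤ 1 := fun d => by
    have := gr_le_one hA (n + d) ht'
    exact_mod_cast this
  have hgle' : ∀ d, gr (n + d) (s : ℝ) ≤ 1 := fun d => by
    have := gr_le_one hA (n + d) (hst'.trans ht')
    exact_mod_cast this
  have hlimA : Tendsto (fun d => ∫ ω in E, (A ω.2 (gr (n + d) t) - A ω.2 (gr (n + d) s)) ∂(PB.prod PE))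
      atTop (𝓝 (∫ ω in E, (A ω.2 t - A ω.2 s) ∂(PB.prod PE))) := by
    apply tendsto_integral_of_dominated_convergence (fun _ => (1 : ℝ))
    · intro d
      exact (((hC.2.2.2.2.1 _).comp measurable_snd).sub
        ((hC.2.2.2.2.1 _).comp measurable_snd)).aestronglyMeasurable
    · exact integrable_const _
    · intro d
      refine ae_of_all _ fun ω => ?_
      have h1 := hC.2.2.2.1 ω.2 (gr (n + d) t)
      have h2 := hC.2.2.2.1 ω.2 (gr (n + d) s)
      rw [Real.norm_eq_abs, abs_le]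
      constructor <;> linarith [h1.1, h1.2, h2.1, h2.2]
    · refine ae_of_all _ fun ω => ?_
      exact (((hC.1 ω.2).tendsto _).comp (gr_tendsto hA t.2 n)).sub
        (((hC.1 ω.2).tendsto _).comp (gr_tendsto hA s.2 n))
  have hlima : Tendsto (fun d => ∫ ω in E, (a b (gr (n + d) t) ω - a b (gr (n + d) s) ω) ∂(PB.prod PE))
      atTop (𝓝 (∫ ω in E, (a b t ω - a b s ω) ∂(PB.prod PE))) := by
    apply tendsto_integral_of_dominated_convergence (fun ω => a b 1 ω)
    · intro d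
      exact ((gmeas _).sub (gmeas _)).aestronglyMeasurable
    · exact (gint 1).restrict
    · intro d
      refine ae_of_all _ fun ω => ?_
      have h1 : a b (gr (n + d) t) ω ≤ a b 1 ω := gmono ω (hgle d)
      have h2 : a b (gr (n + d) s) ω ≤ a b 1 ω := gmono ω (hgle' d)
      have h3 : a b 0 ω ≤ a b (gr (n + d) t) ω := gmono ω zero_le
      have h4 : a b 0 ω ≤ a b (gr (n + d) s) ω := gmono ω zero_le
      rw [gzero ω] at h3 h4
      rw [Real.norm_eq_abs, abs_le]
      constructor <;> linarith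
    · refine ae_of_all _ fun ω => ?_
      exact (((gcont ω).tendsto _).comp (gr_tendsto_nn hA t n)).sub
        (((gcont ω).tendsto _).comp (gr_tendsto_nn hA s n))
  exact tendsto_nhds_unique (hlimA.congr fun d => hgrid d) hlima

/-- the increments of the past determine the past -/
lemma F0_le (hA : S_ARI) (hF : S_FIL) (hW : BM PB W) (s : ℝ≥0) :
    F0 W s ≤ ⨆ n, Fn W n s := by
  unfold F0
  apply iSup_le
  intro r
  apply iSup_le
  intro hr
  rw [← measurable_iff_comap_le]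
  have hr' : (r : ℝ) ≤ s := by exact_mod_cast hr
  have htel : ∀ n (ω : Ω₀ × ℝ), ∑ i ∈ Finset.range (ix n r), dM W n i ω = M W (gr n r) ω := by
    intro n ω
    have h0 : gt n 0 = 0 := by simp [gt]
    have h1 : ∀ J : ℕ, ∑ i ∈ Finset.range J, dM W n i ω = M W (gt n J) ω := by
      intro J
      induction J with
      | zero => simp [h0, (hF Ω₀ _ PB W hW).2.2.2.2 ω]
      | succ J ih => rw [Finset.sum_range_succ, ih, dM]; ring
    exact h1 _
  have hmeas : ∀ n, Measurable[⨆ n, Fn W n s] (fun ω => M W (gr n r) ω) := by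
    intro n
    have h1 : Measurable[Fn W n s] (fun ω => M W (gr n r) ω) := by
      have h2 : (fun ω => M W (gr n r) ω) =
          (fun q : ℕ × (ℕ → ℝ) => ∑ i ∈ Finset.range (ix n r), q.2 i) ∘
            (fun ω : Ω₀ × ℝ => Phi W n (s, ω)) := by
        funext ω
        simp only [Function.comp, Phi]
        rw [← htel n ω]
        apply Finset.sum_congr rfl
        intro i hi
        rw [if_pos (lt_of_lt_of_le (Finset.mem_range.mp hi) (ix_mono n hr'))]
      have h3 : Measurable (fun q : ℕ × (ℕ → ℝ) => ∑ i ∈ Finset.range (ix n r), q.2 i) := by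
        apply Finset.measurable_sum
        intro i _
        exact (measurable_pi_apply i).comp measurable_snd
      rw [h2]
      exact h3.comp (comap_measurable _)
    exact h1.mono (le_iSup (fun n => Fn W n s) n) le_rfl
  have hlim : ∀ ω, Tendsto (fun n => M W (gr n r) ω) atTop (𝓝 (M W r ω)) := by
    intro ω
    have h1 := gr_tendsto_nn hA r 0
    simp only [zero_add] at h1
    exact (((hF Ω₀ _ PB W hW).2.2.2.1 ω).tendsto r).comp h1
  refine @measurable_of_tendsto_metrizable _ _ (⨆ n, Fn W n s) _ _ _ _ _ _ hmeas ?_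
  exact tendsto_pi_nhds.mpr hlim

/-- for `t ≤ 1` -/
lemma fma_le_one (hA : S_ARI) (hC : S_CDF) (hF : S_FIL) (hG : S_GDB) (hW : BM PB W)
    {b : ℝ × (Ω₀ × ℝ) → ℝ} (hb : Comp PB W b) {s t : ℝ≥0} (hst : s ≤ t) (ht : t ≤ 1)
    (E : Set (Ω₀ × ℝ)) (hE : MeasurableSet[F0 W s] E) :
    ∫ ω in E, (A ω.2 t - A ω.2 s) ∂(PB.prod PE) =
      ∫ ω in E, (a b t ω - a b s ω) ∂(PB.prod PE) := by
  haveI := hW.prob
  haveI := PE_prob
  obtain ⟨_, _, gcont, gmono, gzero, gmeas, gint⟩ := hG Ω₀ _ PB W hW b hb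
  have hintA : Integrable (fun ω : Ω₀ × ℝ => A ω.2 t - A ω.2 s) (PB.prod PE) := by
    refine Integrable.mono' (integrable_const (1 : ℝ))
      (((hC.2.2.2.2.1 _).comp measurable_snd).sub
        ((hC.2.2.2.2.1 _).comp measurable_snd)).aestronglyMeasurable (ae_of_all _ fun ω => ?_)
    have h1 := hC.2.2.2.1 ω.2 t
    have h2 := hC.2.2.2.1 ω.2 s
    rw [Real.norm_eq_abs, abs_le]
    constructor <;> linarith [h1.1, h1.2, h2.1, h2.2]
  have hinta : Integrable (fun ω : Ω₀ × ℝ => a b t ω - a b s ω) (PB.prod PE) :=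
    (gint t).sub (gint s)
  have hle : (⨆ n, Fn W n s) ≤ (inferInstance : MeasurableSpace (Ω₀ × ℝ)) :=
    iSup_le fun n => Fn_le hF hW n s
  have hpi : IsPiSystem (⋃ n, {E : Set (Ω₀ × ℝ) | MeasurableSet[Fn W n s] E}) := by
    apply isPiSystem_iUnion_of_monotone
    · intro n
      exact @MeasurableSpace.isPiSystem_measurableSet _ (Fn W n s)
    · intro n m hnm E hE
      exact Fn_mono hF hW s hnm E hE
  have hgen := (MeasurableSpace.generateFrom_iUnion_measurableSet (fun n => Fn W n (s : ℝ))).symm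
  have hlev := fun n E hE => level_identity hA hC hF hG hW hb hst ht n E hE
  have huniv := hlev 0 univ MeasurableSet.univ
  rw [setIntegral_univ, setIntegral_univ] at huniv
  refine MeasurableSpace.induction_on_inter (m := ⨆ n, Fn W n s)
    (C := fun E _ => ∫ ω in E, (A ω.2 t - A ω.2 s) ∂(PB.prod PE) =
      ∫ ω in E, (a b t ω - a b s ω) ∂(PB.prod PE)) hgen hpi ?_ ?_ ?_ ?_ E
      (F0_le hA hF hW s E hE)
  · simp
  · intro E hE
    obtain ⟨n, hn⟩ := mem_iUnion.mp hE
    exact hlev n E hn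
  · intro E hE ih
    have hE' := hle E hE
    have h1 := integral_add_compl hE' hintA
    have h2 := integral_add_compl hE' hinta
    linarith
  · intro f hdisj hf ih
    have hf' := fun i => hle _ (hf i)
    rw [integral_iUnion hf' hdisj hintA.integrableOn, integral_iUnion hf' hdisj hinta.integrableOn]
    congr 1
    funext i
    exact ih i

end

theorem t_FMA : S_ARI → S_CDF → S_FIL → S_GDB → S_FMA := by
  intro hA hC hF hG Ω₀ _ PB W hW b hb s t hst E hE
  by_cases ht : t ≤ 1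
  · exact fma_le_one hA hC hF hG hW hb hst ht E hE
  · have ht1 : (1 : ℝ≥0) ≤ t := (not_le.mp ht).le
    have hAt : ∀ θ, A θ t = A θ ((1 : ℝ≥0) : ℝ) := by
      intro θ
      have h1 : (1 : ℝ) ≤ t := by exact_mod_cast ht1
      rw [hC.2.2.2.2.2.1 θ t h1]
      simp
    have hat : ∀ ω, a b t ω = a b 1 ω := by
      intro ω
      have h1 : (1 : ℝ) ≤ t := by exact_mod_cast ht1
      simp only [a]
      rw [min_eq_right h1]
      simp
    by_cases hs : s ≤ 1
    · have h := fma_le_one hA hC hF hG hW hb hs le_rfl E hE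
      simp only [hAt, hat]
      exact h
    · have hs1 : (1 : ℝ≥0) ≤ s := (not_le.mp hs).le
      have hAs : ∀ θ, A θ s = A θ ((1 : ℝ≥0) : ℝ) := by
        intro θ
        have h1 : (1 : ℝ) ≤ s := by exact_mod_cast hs1
        rw [hC.2.2.2.2.2.1 θ s h1]
        simp
      have has : ∀ ω, a b s ω = a b 1 ω := by
        intro ω
        have h1 : (1 : ℝ) ≤ s := by exact_mod_cast hs1
        simp only [a]
        rw [min_eq_right h1]
        simp
      simp only [hAt, hat, hAs, has, sub_self]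

end Run7.h331.RG
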